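import Pool.Agent.Lib.MP_f146a9_al.DVZ.LeadZ

namespace Pool.Agent.Lib.MP_f146a9_al.DV

private theorem e0 {n : ℕ} {i : ZMod (n + 3)} {k : ℚ} {v : Sq} {a : ℤ}
    (h : (a : ZMod (n + 3)) = i) : gz i k v a = v a + k * (v a - v (a + 1)) := if_pos h

private theorem e1 {n : ℕ} {i : ZMod (n + 3)} {k : ℚ} {v : Sq} {a : ℤ}
    (h : (a : ZMod (n + 3)) = i + 1) : gz i k v a = v a + k * (v (a - 1) - v a) := by
  have h1 : (a : ZMod (n + 3)) ≠ i := by rw [h]; exact zadd_ne i
  exact (if_neg h1).trans (if_pos h)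

private theorem e2 {n : ℕ} {i : ZMod (n + 3)} {k : ℚ} {v : Sq} {a : ℤ}
    (h : (a : ZMod (n + 3)) ≠ i) (h' : (a : ZMod (n + 3)) ≠ i + 1) : gz i k v a = v a :=
  (if_neg h).trans (if_neg h')

theorem gz_comm {n : ℕ} (i j : ZMod (n + 3)) (hij : i ≠ j) (h1 : j ≠ i + 1) (h2 : i ≠ j + 1) :
    gz i 1 * gz j 1 = gz j 1 * gz i 1 := by
  have key : ∀ (i j : ZMod (n + 3)), i ≠ j → j ≠ i + 1 → i ≠ j + 1 → ∀ (v : Sq) (a : ℤ),
      ((a : ZMod (n + 3)) = i ∨ (a : ZMod (n + 3)) = i + 1) →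
      gz i 1 (gz j 1 v) a = gz j 1 (gz i 1 v) a := by
    intro i j hij h1 h2 v a ha
    rcases ha with ha | ha
    · have h3 : ((a + 1 : ℤ) : ZMod (n + 3)) = i + 1 := by push_cast; rw [ha]
      rw [e0 ha, e2 (i := j) (v := v) (a := a) (by rw [ha]; exact hij) (by rw [ha]; exact h2),
        e2 (i := j) (v := v) (a := a + 1) (by rw [h3]; exact h1.symm)
          (by rw [h3]; exact fun h => hij (add_right_cancel h)),
        e2 (i := j) (a := a) (by rw [ha]; exact hij) (by rw [ha]; exact h2), e0 ha]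
    · have h3 : ((a - 1 : ℤ) : ZMod (n + 3)) = i := by push_cast; rw [ha]; ring
      rw [e1 ha, e2 (i := j) (v := v) (a := a - 1) (by rw [h3]; exact hij)
          (by rw [h3]; exact h2),
        e2 (i := j) (v := v) (a := a) (by rw [ha]; exact h1.symm)
          (by rw [ha]; exact fun h => hij (add_right_cancel h)),
        e2 (i := j) (a := a) (by rw [ha]; exact h1.symm)
          (by rw [ha]; exact fun h => hij (add_right_cancel h)), e1 ha]
  refine LinearMap.ext fun v => funext fun a => ?_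
  change gz i 1 (gz j 1 v) a = gz j 1 (gz i 1 v) a
  by_cases ha : (a : ZMod (n + 3)) = i ∨ (a : ZMod (n + 3)) = i + 1
  · exact key i j hij h1 h2 v a ha
  · by_cases hb : (a : ZMod (n + 3)) = j ∨ (a : ZMod (n + 3)) = j + 1
    · exact (key j i hij.symm h2 h1 v a hb).symm
    · rw [not_or] at ha hb
      rw [e2 ha.1 ha.2, e2 hb.1 hb.2, e2 hb.1 hb.2, e2 ha.1 ha.2]

private theorem tri {n : ℕ} (i : ZMod (n + 3)) (b : ℤ) (hb : (b : ZMod (n + 3)) = i) (v : Sq) :
    gz i 1 v b = 2 * v b - v (b + 1) ∧ gz i 1 v (b + 1) = v b ∧ gz i 1 v (b + 2) = v (b + 2) ∧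
      gz (i + 1) 1 v b = v b ∧ gz (i + 1) 1 v (b + 1) = 2 * v (b + 1) - v (b + 2) ∧
      gz (i + 1) 1 v (b + 2) = v (b + 1) := by
  have c1 : ((b + 1 : ℤ) : ZMod (n + 3)) = i + 1 := by push_cast; rw [hb]
  have c2 : ((b + 2 : ℤ) : ZMod (n + 3)) = i + 1 + 1 := by push_cast; rw [hb]; ring
  have n2 : i + 1 + 1 ≠ i := by
    intro h
    apply ztwo_ne n
    have h1 : i + 2 = i + 0 := by
      rw [add_zero]
      calc i + 2 = i + 1 + 1 := by ring
        _ = i := h
    exact add_left_cancel h1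
  refine ⟨?_, ?_, ?_, ?_, ?_, ?_⟩
  · rw [e0 hb]; ring
  · rw [e1 c1, add_sub_cancel_right]; ring
  · rw [e2 (by rw [c2]; exact n2) (by rw [c2]; exact zadd_ne (i + 1))]
  · rw [e2 (by rw [hb]; exact (zadd_ne i).symm) (by rw [hb]; exact n2.symm)]
  · rw [e0 c1]
    have h3 : b + 1 + 1 = b + 2 := by ring
    rw [h3]
    ring
  · rw [e1 c2]
    have h3 : b + 2 - 1 = b + 1 := by ring
    rw [h3]
    ring

theorem gz_braid {n : ℕ} (i : ZMod (n + 3)) :
    gz i 1 * gz (i + 1) 1 * gz i 1 = gz (i + 1) 1 * gz i 1 * gz (i + 1) 1 := by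
  refine LinearMap.ext fun v => funext fun a => ?_
  change gz i 1 (gz (i + 1) 1 (gz i 1 v)) a = gz (i + 1) 1 (gz i 1 (gz (i + 1) 1 v)) a
  by_cases h0 : (a : ZMod (n + 3)) = i
  · have s1 := fun v => (tri i a h0 v).1
    have s2 := fun v => (tri i a h0 v).2.1
    have s3 := fun v => (tri i a h0 v).2.2.1
    have t1 := fun v => (tri i a h0 v).2.2.2.1
    have t2 := fun v => (tri i a h0 v).2.2.2.2.1
    have t3 := fun v => (tri i a h0 v).2.2.2.2.2
    rw [s1, t1, t2, s1, s2, s3, t1, s1, t1, t2]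
    ring
  · by_cases h1 : (a : ZMod (n + 3)) = i + 1
    · obtain ⟨b, rfl⟩ : ∃ b : ℤ, a = b + 1 := ⟨a - 1, by ring⟩
      have hb : (b : ZMod (n + 3)) = i := by
        push_cast at h1
        exact add_right_cancel h1
      have s1 := fun v => (tri i b hb v).1
      have s2 := fun v => (tri i b hb v).2.1
      have s3 := fun v => (tri i b hb v).2.2.1
      have t1 := fun v => (tri i b hb v).2.2.2.1
      have t2 := fun v => (tri i b hb v).2.2.2.2.1
      have t3 := fun v => (tri i b hb v).2.2.2.2.2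
      rw [s2, t1, s1, t2, s2, s3, t1, t3]
    · by_cases h2 : (a : ZMod (n + 3)) = i + 1 + 1
      · obtain ⟨b, rfl⟩ : ∃ b : ℤ, a = b + 2 := ⟨a - 2, by ring⟩
        have hb : (b : ZMod (n + 3)) = i := by
          push_cast at h2
          have h3 : (b : ZMod (n + 3)) + 2 = i + 2 := by
            calc (b : ZMod (n + 3)) + 2 = i + 1 + 1 := h2
              _ = i + 2 := by ring
          exact add_right_cancel h3
        have s1 := fun v => (tri i b hb v).1
        have s2 := fun v => (tri i b hb v).2.1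
        have s3 := fun v => (tri i b hb v).2.2.1
        have t1 := fun v => (tri i b hb v).2.2.2.1
        have t2 := fun v => (tri i b hb v).2.2.2.2.1
        have t3 := fun v => (tri i b hb v).2.2.2.2.2
        rw [s3, t3, s2, t3, s2, t1]
      · rw [e2 h0 h1, e2 h1 h2, e2 h0 h1, e2 h1 h2, e2 h0 h1, e2 h1 h2]

private theorem altProd_map {G H : Type*} [Group G] [Group H] (f : G →* H) (m : ℕ) (a b : G) :
    f (altProd a b m) = altProd (f a) (f b) m := by
  induction m generalizing a b with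
  | zero => exact map_one f
  | succ m ih =>
    change f (a * altProd b a m) = f a * altProd (f b) (f a) m
    rw [map_mul, ih]

private def gu {n : ℕ} (i : ZMod (n + 3)) : (Module.End ℚ Sq)ˣ where
  val := gz i 1
  inv := gz i (-1)
  val_inv := by rw [gz_mul, add_neg_cancel, gz_zero]
  inv_val := by rw [gz_mul, neg_add_cancel, gz_zero]

private theorem gu_zpow {n : ℕ} (i : ZMod (n + 3)) (k : ℤ) :
    (((gu i) ^ k : (Module.End ℚ Sq)ˣ) : Module.End ℚ Sq) = gz i k := by
  induction k using Int.induction_on with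
  | zero =>
    rw [zpow_zero, Units.val_one, Int.cast_zero, gz_zero]
  | succ k ih =>
    rw [zpow_add_one, Units.val_mul, ih]
    change gz i _ * gz i 1 = _
    rw [gz_mul]
    push_cast
    rfl
  | pred k ih =>
    rw [zpow_sub_one, Units.val_mul, ih]
    change gz i _ * gz i (-1) = _
    rw [gz_mul]
    push_cast
    rw [sub_eq_add_neg]

private theorem gu_alt {n : ℕ} (i j : ZMod (n + 3)) :
    altProd (gu i) (gu j) (typeAA n i j) = altProd (gu j) (gu i) (typeAA n i j) := by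
  have h1 : typeAA n i j = if i = j then 1 else (if j = i + 1 ∨ i = j + 1 then 3 else 2) := rfl
  rw [h1]
  by_cases h2 : i = j
  · rw [h2]
  · rw [if_neg h2]
    by_cases h3 : j = i + 1 ∨ i = j + 1
    · rw [if_pos h3]
      refine Units.ext ?_
      change gz i 1 * (gz j 1 * (gz i 1 * 1)) = gz j 1 * (gz i 1 * (gz j 1 * 1))
      rw [mul_one, mul_one, ← mul_assoc, ← mul_assoc]
      rcases h3 with h3 | h3
      · rw [h3]
        exact gz_braid i
      · rw [h3]
        exact (gz_braid j).symm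
    · rw [if_neg h3]
      refine Units.ext ?_
      change gz i 1 * (gz j 1 * 1) = gz j 1 * (gz i 1 * 1)
      rw [mul_one, mul_one]
      exact gz_comm i j h2 (fun h4 => h3 (Or.inl h4)) fun h4 => h3 (Or.inr h4)

theorem exists_homZ (n : ℕ) : ∃ ρ : ArtinGroup (typeAA n) →* (Module.End ℚ Sq)ˣ,
    ∀ (i : ZMod (n + 3)) (k : ℤ),
    ((ρ ((PresentedGroup.of i : ArtinGroup (typeAA n)) ^ k) : (Module.End ℚ Sq)ˣ) : Module.End ℚ Sq) =
      gz i k := by
  have h1 : ∀ r ∈ artinRels (typeAA n), FreeGroup.lift (gu (n := n)) r = 1 := by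
    rintro r ⟨i, j, _, rfl⟩
    rw [map_mul, map_inv, altProd_map, altProd_map, FreeGroup.lift_apply_of,
      FreeGroup.lift_apply_of, gu_alt, mul_inv_cancel]
  refine ⟨PresentedGroup.toGroup h1, fun i k => ?_⟩
  rw [map_zpow, PresentedGroup.toGroup.of, gu_zpow]

end Pool.Agent.Lib.MP_f146a9_al.DV
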