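import Pool.Agent.Lib.MP_f146a9_al.DVZ.DescZ

/-! The cell after a generator, second case. -/

namespace Pool.Agent.Lib.MP_f146a9_al.DV

private theorem lead_add' {v v' : Sq} {j : ℤ} (h : Lead v j) (h' : ∀ a, j ≤ a → v' a = 0) :
    Lead (v + v') j := by
  refine ⟨?_, fun a ha => ?_⟩
  · rw [Pi.add_apply, h' j le_rfl, add_zero]
    exact h.1
  · rw [Pi.add_apply, h.2 a ha, h' a ha.le, add_zero]

private theorem lead_smul' {v : Sq} {j : ℤ} {c : ℚ} (hc : c ≠ 0) (h : Lead v j) : Lead (c • v) j := by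
  refine ⟨?_, fun a ha => ?_⟩
  · rw [Pi.smul_apply, smul_eq_mul]
    exact mul_ne_zero hc h.1
  · rw [Pi.smul_apply, h.2 a ha, smul_zero]

theorem downZ {n : ℕ} (i : ZMod (n + 3)) (k : ℚ) {x : Module.End ℚ Sq} {w : Equiv.Perm ℤ}
    (hx : GoodZ n x) (h : CellZ x w) (hper : ∀ a : ℤ, w (a + ((n : ℤ) + 3)) = w a + ((n : ℤ) + 3))
    (hw : ∀ l : ℤ, (l : ZMod (n + 3)) = i → w⁻¹ (l + 1) < w⁻¹ l) :
    CellZ (gz i k * x) w ∨ CellZ (gz i k * x) (sz i * w) := by
  by_cases hk : k = 0
  · left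
    rw [hk, gz_zero, one_mul]
    exact h
  have hhl : ∀ l : ℤ, (l : ZMod (n + 3)) = i + 1 → ((l - 1 : ℤ) : ZMod (n + 3)) = i := by
    intro l hl
    push_cast
    rw [hl]
    ring
  have hlh : ∀ l : ℤ, (l : ZMod (n + 3)) = i → ((l + 1 : ℤ) : ZMod (n + 3)) = i + 1 := by
    intro l hl
    push_cast
    rw [hl]
  have factA : ∀ (u : Sq) (a b : ℤ), Lead u a → Lead (gz i k u) b →
      ((a : ZMod (n + 3)) = i ∧ b = a + 1) ∨ ((a : ZMod (n + 3)) = i + 1 ∧ (b = a ∨ b = a - 1)) ∨
      ((a : ZMod (n + 3)) ≠ i ∧ (a : ZMod (n + 3)) ≠ i + 1 ∧ b = a) := by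
    intro u a b hu hb
    by_cases h1 : (a : ZMod (n + 3)) = i
    · exact Or.inl ⟨h1, lead_unique hb (gz_low i hk hu h1)⟩
    by_cases h2 : (a : ZMod (n + 3)) = i + 1
    · refine Or.inr (Or.inl ⟨h2, ?_⟩)
      rcases gz_high i k hu h2 with h3 | h3
      · exact Or.inl (lead_unique hb h3)
      · exact Or.inr (lead_unique hb h3)
    · exact Or.inr (Or.inr ⟨h1, h2, lead_unique hb (gz_other i k hu h1 h2)⟩)
  have hai : ∀ a : ℤ, w (w⁻¹ a) = a := fun a => w.apply_symm_apply a
  have hia : ∀ a : ℤ, w⁻¹ (w a) = a := fun a => w.symm_apply_apply a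
  obtain ⟨C, hC⟩ := hx.bdd
  obtain ⟨P, hPdef⟩ : ∃ P : ℤ → Prop, ∀ l, P l ↔
      ∃ v, Lead v (w⁻¹ (l + 1)) ∧ Lead (gz i k (x v)) l := ⟨_, fun _ => Iff.rfl⟩
  have hperi : ∀ a : ℤ, w⁻¹ (a + ((n : ℤ) + 3)) = w⁻¹ a + ((n : ℤ) + 3) := by
    intro a
    have h1 := hper (w⁻¹ a)
    rw [hai] at h1
    rw [← h1, hia]
  have hshx : ∀ v : Sq, x (fun b => v (b + ((n : ℤ) + 3))) = fun a => x v (a + ((n : ℤ) + 3)) :=
    fun v => funext (hx.per v)
  have hshg : ∀ v : Sq, gz i k (fun b => v (b + ((n : ℤ) + 3))) =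
      fun a => gz i k v (a + ((n : ℤ) + 3)) := fun v => funext ((good_gz i k).per v)
  have hls : ∀ (v : Sq) (l : ℤ), Lead (fun b => v (b + ((n : ℤ) + 3))) l ↔
      Lead v (l + ((n : ℤ) + 3)) := by
    intro v l
    constructor
    · rintro ⟨h1, h2⟩
      refine ⟨h1, fun a ha => ?_⟩
      have h3 := h2 (a - ((n : ℤ) + 3)) (by linarith)
      simpa using h3
    · rintro ⟨h1, h2⟩
      exact ⟨h1, fun a ha => h2 _ (by linarith)⟩
  have hP1 : ∀ l, P (l + ((n : ℤ) + 3)) ↔ P l := by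
    intro l
    rw [hPdef, hPdef]
    constructor
    · rintro ⟨v, h1, h2⟩
      refine ⟨fun b => v (b + ((n : ℤ) + 3)), ?_, ?_⟩
      · rw [hls, ← hperi]
        rwa [show l + 1 + ((n : ℤ) + 3) = l + ((n : ℤ) + 3) + 1 by ring]
      · rw [hshx, hshg (x v), hls]
        exact h2
    · rintro ⟨v, h1, h2⟩
      have hv : v = fun b => (fun b => v (b - ((n : ℤ) + 3))) (b + ((n : ℤ) + 3)) := by
        funext b
        simp
      refine ⟨fun b => v (b - ((n : ℤ) + 3)), ?_, ?_⟩
      · rw [show l + ((n : ℤ) + 3) + 1 = l + 1 + ((n : ℤ) + 3) by ring, hperi, ← hls]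
        rwa [← hv]
      · rw [← hls, ← hshg, ← hshx]
        rwa [← hv]
  have hPt : ∀ (t : ℤ) (l : ℤ), P (l + t * ((n : ℤ) + 3)) ↔ P l := by
    intro t
    induction t using Int.induction_on with
    | zero => intro l; simp
    | succ m ih =>
      intro l
      rw [show l + ((m : ℤ) + 1) * ((n : ℤ) + 3) = l + (m : ℤ) * ((n : ℤ) + 3) + ((n : ℤ) + 3) by
        ring, hP1, ih]
    | pred m ih =>
      intro l
      rw [← hP1, show l + (-(m : ℤ) - 1) * ((n : ℤ) + 3) + ((n : ℤ) + 3) =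
        l + -(m : ℤ) * ((n : ℤ) + 3) by ring, ih]
  have hmin : ∀ (j : ℤ) (v : Sq) (b : ℤ), Lead v j → Lead (gz i k (x v)) b →
      ∃ a, Lead (x v) a ∧ w j ≤ a ∧ a - 1 ≤ b := by
    intro j v b hv hb
    obtain ⟨a, ha, -⟩ := hC v j hv
    refine ⟨a, ha, (h j).2 v a hv ha, ?_⟩
    rcases factA _ a b ha hb with ⟨-, h1⟩ | ⟨-, h1 | h1⟩ | ⟨-, -, h1⟩ <;> omega
  by_cases hex : ∃ l0 : ℤ, (l0 : ZMod (n + 3)) = i ∧ P l0
  · right
    have hall : ∀ l : ℤ, (l : ZMod (n + 3)) = i → P l := by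
      intro l hl
      obtain ⟨l0, hl0, hP0⟩ := hex
      have h1 : ((l0 : ℤ) : ZMod (n + 3)) = ((l : ℤ) : ZMod (n + 3)) := by rw [hl0, hl]
      rw [ZMod.intCast_eq_intCast_iff_dvd_sub] at h1
      obtain ⟨t, ht⟩ := h1
      have h2 : l = l0 + t * ((n : ℤ) + 3) := by
        push_cast at ht
        linarith
      rw [h2, hPt]
      exact hP0
    intro j
    obtain ⟨v0, hv0, hxv0⟩ := (h j).1
    by_cases h1 : ((w j : ℤ) : ZMod (n + 3)) = i
    · -- low
      have hs : (sz i * w) j = w j + 1 := by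
        rw [Equiv.Perm.mul_apply]
        exact if_pos h1
      rw [hs]
      refine ⟨⟨v0, hv0, gz_low i hk hxv0 h1⟩, fun v b hv hb => ?_⟩
      obtain ⟨a, ha, hla, hab⟩ := hmin j v b hv hb
      by_contra hcon
      have hab' : a = w j + 1 ∧ b = w j := by
        by_cases h5 : a = w j
        · exfalso
          have h6 := lead_unique hb (gz_low i hk ha (by rw [h5]; exact h1))
          omega
        · rcases factA _ a b ha hb with ⟨-, h2⟩ | ⟨-, h2 | h2⟩ | ⟨-, -, h2⟩ <;> omega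
      obtain ⟨v', hv', hg'⟩ := (hPdef (w j)).mp (hall _ h1)
      have hlt : w⁻¹ (w j + 1) < j := by
        have := hw (w j) h1
        rwa [hia] at this
      have hb' : Lead (gz i k (x v)) (w j) := by
        have h2 := hb
        rw [hab'.2] at h2
        exact h2
      set c : ℚ := -(gz i k (x v) (w j) / gz i k (x v') (w j)) with hc
      have hu : Lead (v + c • v') j := lead_add' hv fun a ha => by
        rw [Pi.smul_apply, hv'.2 a (by omega), smul_zero]
      have hgu : ∀ a, w j ≤ a → gz i k (x (v + c • v')) a = 0 := by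
        intro a ha
        rw [map_add, map_smul, map_add, map_smul, Pi.add_apply, Pi.smul_apply, smul_eq_mul]
        rcases ha.lt_or_eq with h2 | h2
        · rw [hb'.2 a h2, hg'.2 a h2]
          ring
        · rw [← h2, hc]
          have := hg'.1
          field_simp
          ring
      obtain ⟨C', hC'⟩ := (good_gz i k).bdd
      obtain ⟨a', ha', -⟩ := hC _ _ hu
      obtain ⟨b', hb'', -⟩ := hC' _ _ ha'
      have hla' := (h j).2 _ _ hu ha'
      apply hb''.1
      apply hgu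
      rcases factA _ a' b' ha' hb'' with ⟨-, h2⟩ | ⟨h3, h2 | h2⟩ | ⟨-, -, h2⟩
      · omega
      · omega
      · rcases hla'.lt_or_eq with h4 | h4
        · omega
        · exfalso
          rw [← h4, h1] at h3
          exact zadd_ne i h3.symm
      · omega
    by_cases h2 : ((w j : ℤ) : ZMod (n + 3)) = i + 1
    · -- high
      have hs : (sz i * w) j = w j - 1 := by
        rw [Equiv.Perm.mul_apply]
        exact (if_neg h1).trans (if_pos h2)
      rw [hs]
      refine ⟨?_, fun v b hv hb => ?_⟩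
      · obtain ⟨v', hv', hg'⟩ := (hPdef (w j - 1)).mp (hall _ (hhl _ h2))
        rw [sub_add_cancel, hia] at hv'
        exact ⟨v', hv', hg'⟩
      · obtain ⟨a, ha, hla, hab⟩ := hmin j v b hv hb
        omega
    · have hs : (sz i * w) j = w j := by
        rw [Equiv.Perm.mul_apply]
        exact (if_neg h1).trans (if_neg h2)
      rw [hs]
      refine ⟨⟨v0, hv0, gz_other i k hxv0 h1 h2⟩, fun v b hv hb => ?_⟩
      obtain ⟨a, ha, hla, hab⟩ := hmin j v b hv hb
      rcases hla.lt_or_eq with h3 | h3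
      · omega
      · rcases factA _ a b ha hb with ⟨h4, -⟩ | ⟨h4, -⟩ | ⟨-, -, h4⟩
        · rw [← h3] at h4
          exact absurd h4 h1
        · rw [← h3] at h4
          exact absurd h4 h2
        · omega
  · left
    have hno : ∀ l : ℤ, (l : ZMod (n + 3)) = i → ¬ P l := fun l hl hPl => hex ⟨l, hl, hPl⟩
    have hhigh : ∀ (j : ℤ) (v : Sq), ((w j : ℤ) : ZMod (n + 3)) = i + 1 → Lead v j →
        ¬ Lead (gz i k (x v)) (w j - 1) := by
      intro j v h2 hv hg
      apply hno (w j - 1) (hhl _ h2)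
      rw [hPdef]
      refine ⟨v, ?_, hg⟩
      rwa [sub_add_cancel, hia]
    intro j
    obtain ⟨v0, hv0, hxv0⟩ := (h j).1
    refine ⟨?_, fun v b hv hb => ?_⟩
    · by_cases h1 : ((w j : ℤ) : ZMod (n + 3)) = i
      · -- low
        have hjh : w (w⁻¹ (w j + 1)) = w j + 1 := hai _
        obtain ⟨v1, hv1, hxv1⟩ := (h (w⁻¹ (w j + 1))).1
        have hlt : w⁻¹ (w j + 1) < j := by
          have := hw (w j) h1
          rwa [hia] at this
        have hh : ((w (w⁻¹ (w j + 1)) : ℤ) : ZMod (n + 3)) = i + 1 := by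
          rw [hjh]
          exact hlh _ h1
        have hg1 : Lead (gz i k (x v1)) (w j + 1) := by
          rcases gz_high i k hxv1 hh with h3 | h3
          · rwa [hjh] at h3
          · exact absurd h3 (hhigh _ v1 hh hv1)
        rw [hjh] at hxv1
        have hg0 := gz_low i hk hxv0 h1
        set c : ℚ := -(gz i k (x v0) (w j + 1) / gz i k (x v1) (w j + 1)) with hc
        have hc0 : c ≠ 0 := neg_ne_zero.mpr (div_ne_zero hg0.1 hg1.1)
        refine ⟨v0 + c • v1, lead_add' hv0 fun a ha => ?_, ?_⟩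
        · rw [Pi.smul_apply, hv1.2 a (by omega), smul_zero]
        · have hl : Lead (x (v0 + c • v1)) (w j + 1) := by
            rw [map_add, map_smul, add_comm]
            exact lead_add' (lead_smul' hc0 hxv1) fun a ha => hxv0.2 a (by omega)
          have hz : gz i k (x (v0 + c • v1)) (w j + 1) = 0 := by
            rw [map_add, map_smul, map_add, map_smul, Pi.add_apply, Pi.smul_apply, smul_eq_mul, hc]
            have := hg1.1
            field_simp
            ring
          rcases gz_high i k hl (hlh _ h1) with h3 | h3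
          · exact absurd hz h3.1
          · rwa [add_sub_cancel_right] at h3
      by_cases h2 : ((w j : ℤ) : ZMod (n + 3)) = i + 1
      · rcases gz_high i k hxv0 h2 with h3 | h3
        · exact ⟨v0, hv0, h3⟩
        · exact absurd h3 (hhigh j v0 h2 hv0)
      · exact ⟨v0, hv0, gz_other i k hxv0 h1 h2⟩
    · obtain ⟨a, ha, hla, hab⟩ := hmin j v b hv hb
      rcases hla.lt_or_eq with h3 | h3
      · omega
      · rcases factA _ a b ha hb with ⟨-, h4⟩ | ⟨h4, h5 | h5⟩ | ⟨-, -, h4⟩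
        · omega
        · omega
        · exfalso
          rw [← h3] at h4 h5
          rw [h5] at hb
          exact hhigh j v h4 hv hb
        · omega

end Pool.Agent.Lib.MP_f146a9_al.DV
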