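import Pool.Agent.Lib.MP_f146a9_al.DVZ.DescZ

namespace Pool.Agent.Lib.MP_f146a9_al.DV

private theorem up_factA {n : ℕ} (i : ZMod (n + 3)) {k : ℚ} (hk : k ≠ 0) {u : Sq} {a b : ℤ}
    (h : Lead u a) (h' : Lead (gz i k u) b) :
    ((a : ZMod (n + 3)) = i ∧ b = a + 1) ∨ ((a : ZMod (n + 3)) = i + 1 ∧ (b = a ∨ b = a - 1)) ∨
      ((a : ZMod (n + 3)) ≠ i ∧ (a : ZMod (n + 3)) ≠ i + 1 ∧ b = a) := by
  by_cases h1 : (a : ZMod (n + 3)) = i
  · exact Or.inl ⟨h1, lead_unique h' (gz_low i hk h h1)⟩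
  · by_cases h2 : (a : ZMod (n + 3)) = i + 1
    · refine Or.inr (Or.inl ⟨h2, ?_⟩)
      rcases gz_high i k h h2 with h3 | h3
      · exact Or.inl (lead_unique h' h3)
      · exact Or.inr (lead_unique h' h3)
    · exact Or.inr (Or.inr ⟨h1, h2, lead_unique h' (gz_other i k h h1 h2)⟩)

theorem upZ {n : ℕ} (i : ZMod (n + 3)) {k : ℚ} (hk : k ≠ 0) {x : Module.End ℚ Sq} {w : Equiv.Perm ℤ}
    (hx : GoodZ n x) (h : CellZ x w)
    (hw : ∀ l : ℤ, (l : ZMod (n + 3)) = i → w⁻¹ l < w⁻¹ (l + 1)) : CellZ (gz i k * x) (sz i * w) := by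
  intro j
  obtain ⟨l, hl⟩ : ∃ l, l = w j := ⟨_, rfl⟩
  have hlj : w⁻¹ l = j := by rw [hl]; exact w.symm_apply_apply j
  obtain ⟨⟨v0, hv0, hxv0⟩, hmin⟩ := h j
  rw [← hl] at hxv0
  have hmin' : ∀ v b, Lead v j → Lead (gz i k (x v)) b → ∃ a, Lead (x v) a ∧ l ≤ a ∧
      (((a : ZMod (n + 3)) = i ∧ b = a + 1) ∨ ((a : ZMod (n + 3)) = i + 1 ∧ (b = a ∨ b = a - 1)) ∨
      ((a : ZMod (n + 3)) ≠ i ∧ (a : ZMod (n + 3)) ≠ i + 1 ∧ b = a)) := by
    intro v b hv hb
    obtain ⟨C, hC⟩ := hx.bdd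
    obtain ⟨a, ha, -⟩ := hC v j hv
    exact ⟨a, ha, hl ▸ hmin v a hv ha, up_factA i hk ha hb⟩
  show (∃ v, Lead v j ∧ Lead (gz i k (x v)) (szf i (w j))) ∧
    ∀ v b, Lead v j → Lead (gz i k (x v)) b → szf i (w j) ≤ b
  rw [← hl]
  by_cases h1 : (l : ZMod (n + 3)) = i
  · have hs : szf i l = l + 1 := if_pos h1
    have h2 : (l : ZMod (n + 3)) ≠ i + 1 := by
      rw [h1]
      exact (zadd_ne i).symm
    rw [hs]
    refine ⟨⟨v0, hv0, gz_low i hk hxv0 h1⟩, fun v b hv hb => ?_⟩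
    obtain ⟨a, ha, hla, hA⟩ := hmin' v b hv hb
    rcases hA with ⟨_, hb1⟩ | ⟨ha1, hb1⟩ | ⟨ha1, _, hb1⟩
    · omega
    · have hne : a ≠ l := by
        rintro rfl
        exact h2 ha1
      have hne2 : a ≠ l + 1 := by
        rintro rfl
        have h3 := lead_mem hx h hv ha
        have h4 := hw l h1
        rw [hlj] at h4
        omega
      omega
    · have hne : a ≠ l := by
        rintro rfl
        exact ha1 h1
      omega
  · by_cases h2 : (l : ZMod (n + 3)) = i + 1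
    · have hs : szf i l = l - 1 := by
        unfold szf
        rw [if_neg h1, if_pos h2]
      rw [hs]
      have hlow : ((l - 1 : ℤ) : ZMod (n + 3)) = i := by
        push_cast
        rw [h2]
        ring
      obtain ⟨j0, hj0⟩ : ∃ j0, j0 = w⁻¹ (l - 1) := ⟨_, rfl⟩
      have hwj0 : w j0 = l - 1 := by rw [hj0]; exact w.apply_symm_apply (l - 1)
      have hj : j0 < j := by
        have h3 := hw (l - 1) hlow
        rw [sub_add_cancel, hlj, ← hj0] at h3
        exact h3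
      obtain ⟨⟨v1, hv1, hxv1⟩, -⟩ := h j0
      rw [hwj0] at hxv1
      refine ⟨?_, fun v b hv hb => ?_⟩
      · obtain ⟨c, hc⟩ : ∃ c : ℚ,
            x v0 l + k * (x v0 (l - 1) + c * x v1 (l - 1) - x v0 l) = 0 := by
          refine ⟨-(x v0 l + k * (x v0 (l - 1) - x v0 l)) / (k * x v1 (l - 1)), ?_⟩
          have h5 : x v1 (l - 1) ≠ 0 := hxv1.1
          field_simp
          ring
        have hx1l : x v1 l = 0 := hxv1.2 l (by omega)
        have hxv : x (v0 + c • v1) = x v0 + c • x v1 := by rw [map_add, map_smul]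
        have hLv : Lead (v0 + c • v1) j := by
          refine ⟨?_, fun a ha => ?_⟩
          · rw [Pi.add_apply, Pi.smul_apply, hv1.2 j hj, smul_zero, add_zero]
            exact hv0.1
          · rw [Pi.add_apply, Pi.smul_apply, hv1.2 a (by omega), hv0.2 a ha, smul_zero, add_zero]
        have hLx : Lead (x (v0 + c • v1)) l := by
          rw [hxv]
          refine ⟨?_, fun a ha => ?_⟩
          · rw [Pi.add_apply, Pi.smul_apply, hx1l, smul_zero, add_zero]
            exact hxv0.1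
          · rw [Pi.add_apply, Pi.smul_apply, hxv1.2 a (by omega), hxv0.2 a ha, smul_zero, add_zero]
        refine ⟨v0 + c • v1, hLv, ?_⟩
        rcases gz_high i k hLx h2 with h3 | h3
        · exfalso
          apply h3.1
          rw [gz_high_apply i k _ h2, hxv]
          simp only [Pi.add_apply, Pi.smul_apply, smul_eq_mul]
          rw [hx1l, mul_zero, add_zero]
          exact hc
        · exact h3
      · obtain ⟨a, ha, hla, hA⟩ := hmin' v b hv hb
        rcases hA with ⟨_, hb1⟩ | ⟨_, hb1⟩ | ⟨_, _, hb1⟩ <;> omega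
    · have hs : szf i l = l := by
        unfold szf
        rw [if_neg h1, if_neg h2]
      rw [hs]
      refine ⟨⟨v0, hv0, gz_other i k hxv0 h1 h2⟩, fun v b hv hb => ?_⟩
      obtain ⟨a, ha, hla, hA⟩ := hmin' v b hv hb
      rcases hA with ⟨_, hb1⟩ | ⟨ha1, hb1⟩ | ⟨_, _, hb1⟩
      · omega
      · have hne : a ≠ l := by
          rintro rfl
          exact h2 ha1
        omega
      · omega

end Pool.Agent.Lib.MP_f146a9_al.DV
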