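import Pool.Agent.Lib.MP_f146a9_al.DVZ.Defs

namespace Pool.Agent.Lib.MP_f146a9_al.DV

private theorem PFZ_low {n : ℕ} {i : ZMod (n + 3)} {a : ℤ} (h : (a : ZMod (n + 3)) = i) :
    sz i a = a + 1 := by
  show szf i a = a + 1
  unfold szf
  rw [if_pos h]

private theorem PFZ_high {n : ℕ} {i : ZMod (n + 3)} {a : ℤ} (h : (a : ZMod (n + 3)) = i + 1) :
    sz i a = a - 1 := by
  show szf i a = a - 1
  unfold szf
  rw [if_neg (by rw [h]; exact zadd_ne i), if_pos h]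

private theorem PFZ_else {n : ℕ} {i : ZMod (n + 3)} {a : ℤ} (h : (a : ZMod (n + 3)) ≠ i)
    (h' : (a : ZMod (n + 3)) ≠ i + 1) : sz i a = a := by
  show szf i a = a
  unfold szf
  rw [if_neg h, if_neg h']

private theorem PFZ_sq {n : ℕ} (i : ZMod (n + 3)) : sz i * sz i = 1 := by
  ext a
  exact szf_szf i a

private theorem PFZ_two {n : ℕ} (i : ZMod (n + 3)) : i + 1 + 1 ≠ i := by
  intro h
  apply ztwo_ne n
  linear_combination h

private theorem PFZ_inv {G : Type*} [Group G] {x y : G} {n : ℕ} (hx : x * x = 1) (hy : y * y = 1)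
    (h : (x * y) ^ n = 1) : (y * x) ^ n = 1 := by
  have hx' : x⁻¹ = x := inv_eq_of_mul_eq_one_right hx
  have hy' : y⁻¹ = y := inv_eq_of_mul_eq_one_right hy
  have e : y * x = (x * y)⁻¹ := by rw [mul_inv_rev, hx', hy']
  rw [e, inv_pow, h, inv_one]

private theorem PFZ_cube {n : ℕ} (i : ZMod (n + 3)) : (sz i * sz (i + 1)) ^ 3 = 1 := by
  have p0 : ∀ x : ℤ, (x : ZMod (n + 3)) = i → (sz i * sz (i + 1)) x = x + 1 := by
    intro x hx
    rw [Equiv.Perm.mul_apply, PFZ_else (i := i + 1) (by rw [hx]; exact (zadd_ne i).symm)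
      (by rw [hx]; exact (PFZ_two i).symm), PFZ_low hx]
  have p1 : ∀ x : ℤ, (x : ZMod (n + 3)) = i + 1 → (sz i * sz (i + 1)) x = x + 1 := by
    intro x hx
    have hx1 : ((x + 1 : ℤ) : ZMod (n + 3)) = i + 1 + 1 := by push_cast; rw [hx]
    rw [Equiv.Perm.mul_apply, PFZ_low hx, PFZ_else (by rw [hx1]; exact PFZ_two i)
      (by rw [hx1]; exact zadd_ne _)]
  have p2 : ∀ x : ℤ, (x : ZMod (n + 3)) = i + 1 + 1 → (sz i * sz (i + 1)) x = x - 1 - 1 := by
    intro x hx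
    have hx1 : ((x - 1 : ℤ) : ZMod (n + 3)) = i + 1 := by push_cast; rw [hx]; ring
    rw [Equiv.Perm.mul_apply, PFZ_high hx, PFZ_high hx1]
  have p3 : ∀ x : ℤ, (x : ZMod (n + 3)) ≠ i → (x : ZMod (n + 3)) ≠ i + 1 →
      (x : ZMod (n + 3)) ≠ i + 1 + 1 → (sz i * sz (i + 1)) x = x := by
    intro x h0 h1 h2
    rw [Equiv.Perm.mul_apply, PFZ_else h1 h2, PFZ_else h0 h1]
  have c : ∀ x : ℤ, ((sz i * sz (i + 1)) ^ 3) x =
      (sz i * sz (i + 1)) ((sz i * sz (i + 1)) ((sz i * sz (i + 1)) x)) := by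
    intro x
    rfl
  ext x
  rw [c, Equiv.Perm.one_apply]
  by_cases h0 : (x : ZMod (n + 3)) = i
  · have a1 : ((x + 1 : ℤ) : ZMod (n + 3)) = i + 1 := by push_cast; rw [h0]
    have a2 : ((x + 1 + 1 : ℤ) : ZMod (n + 3)) = i + 1 + 1 := by push_cast; rw [h0]
    rw [p0 x h0, p1 _ a1, p2 _ a2]
    ring
  by_cases h1 : (x : ZMod (n + 3)) = i + 1
  · have a1 : ((x + 1 : ℤ) : ZMod (n + 3)) = i + 1 + 1 := by push_cast; rw [h1]
    have a2 : ((x + 1 - 1 - 1 : ℤ) : ZMod (n + 3)) = i := by push_cast; rw [h1]; ring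
    rw [p1 x h1, p2 _ a1, p0 _ a2]
    ring
  by_cases h2 : (x : ZMod (n + 3)) = i + 1 + 1
  · have a1 : ((x - 1 - 1 : ℤ) : ZMod (n + 3)) = i := by push_cast; rw [h2]; ring
    have a2 : ((x - 1 - 1 + 1 : ℤ) : ZMod (n + 3)) = i + 1 := by push_cast; rw [h2]; ring
    rw [p2 x h2, p0 _ a1, p1 _ a2]
    ring
  rw [p3 x h0 h1 h2, p3 x h0 h1 h2, p3 x h0 h1 h2]

private theorem PFZ_comm {n : ℕ} {i j : ZMod (n + 3)} (h1 : i ≠ j) (h2 : j ≠ i + 1) (h3 : i ≠ j + 1) :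
    Commute (sz i) (sz j) := by
  apply Equiv.Perm.Disjoint.commute
  intro x
  by_cases hx : (x : ZMod (n + 3)) = i
  · right
    exact PFZ_else (by rw [hx]; exact h1) (by rw [hx]; exact h3)
  by_cases hx' : (x : ZMod (n + 3)) = i + 1
  · right
    exact PFZ_else (by rw [hx']; exact fun h => h2 h.symm)
      (by rw [hx']; exact fun h => h1 (add_right_cancel h))
  left
  exact PFZ_else hx hx'

theorem exists_permZ {n : ℕ} {W : Type*} [Group W] (cs : CoxeterSystem (typeAA n) W) :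
    ∃ f : W →* Equiv.Perm ℤ, ∀ i : ZMod (n + 3), f (cs.simple i) = sz i := by
  have hf : (typeAA n).IsLiftable (fun i : ZMod (n + 3) => sz i) := by
    intro i j
    have hM : (typeAA n) i j = if i = j then 1 else if j = i + 1 ∨ i = j + 1 then 3 else 2 := rfl
    rw [hM]
    show (sz i * sz j) ^ _ = 1
    by_cases h1 : i = j
    · subst h1
      rw [if_pos rfl, pow_one, PFZ_sq]
    rw [if_neg h1]
    by_cases h2 : j = i + 1 ∨ i = j + 1
    · rw [if_pos h2]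
      rcases h2 with h2 | h2
      · rw [h2]
        exact PFZ_cube i
      · rw [h2]
        exact PFZ_inv (PFZ_sq j) (PFZ_sq (j + 1)) (PFZ_cube j)
    · rw [if_neg h2]
      push Not at h2
      rw [(PFZ_comm h1 h2.1 h2.2).mul_pow, pow_two, pow_two, PFZ_sq, PFZ_sq, one_mul]
  exact ⟨cs.lift ⟨_, hf⟩, fun i => cs.lift_apply_simple hf i⟩

private theorem PFZ_per {n : ℕ} (i : ZMod (n + 3)) (a : ℤ) :
    sz i (a + ((n : ℤ) + 3)) = sz i a + ((n : ℤ) + 3) := by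
  have h0 : ((n : ZMod (n + 3)) + 3) = 0 := by
    have := ZMod.natCast_self (n + 3)
    push_cast at this
    exact this
  have h1 : ((a + ((n : ℤ) + 3) : ℤ) : ZMod (n + 3)) = (a : ZMod (n + 3)) := by
    push_cast
    rw [h0, add_zero]
  show szf i (a + ((n : ℤ) + 3)) = szf i a + ((n : ℤ) + 3)
  unfold szf
  rw [h1]
  split_ifs <;> ring

theorem perZ {n : ℕ} {W : Type*} [Group W] (cs : CoxeterSystem (typeAA n) W) (f : W →* Equiv.Perm ℤ)
    (hf : ∀ i : ZMod (n + 3), f (cs.simple i) = sz i) (w : W) (a : ℤ) :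
    f w (a + ((n : ℤ) + 3)) = f w a + ((n : ℤ) + 3) := by
  induction w using cs.simple_induction_left with
  | one =>
    rw [map_one]
    rfl
  | mul_simple_left w i ih =>
    rw [map_mul, hf, Equiv.Perm.mul_apply, Equiv.Perm.mul_apply, ih, PFZ_per]

theorem perZ_inv {n : ℕ} {W : Type*} [Group W] (cs : CoxeterSystem (typeAA n) W) (f : W →* Equiv.Perm ℤ)
    (hf : ∀ i : ZMod (n + 3), f (cs.simple i) = sz i) (w : W) (a q : ℤ) :
    (f w)⁻¹ (a + q * ((n : ℤ) + 3)) = (f w)⁻¹ a + q * ((n : ℤ) + 3) := by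
  rw [← map_inv]
  have h := perZ cs f hf w⁻¹
  induction q using Int.induction_on with
  | zero => rw [zero_mul, add_zero, add_zero]
  | succ k ih =>
    have e : a + ((k : ℤ) + 1) * ((n : ℤ) + 3) = a + (k : ℤ) * ((n : ℤ) + 3) + ((n : ℤ) + 3) := by ring
    rw [e, h, ih]
    ring
  | pred k ih =>
    have h1 := h (a + (-(k : ℤ) - 1) * ((n : ℤ) + 3))
    have e : a + (-(k : ℤ) - 1) * ((n : ℤ) + 3) + ((n : ℤ) + 3) = a + -(k : ℤ) * ((n : ℤ) + 3) := by ring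
    rw [e, ih] at h1
    linarith

end Pool.Agent.Lib.MP_f146a9_al.DV
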