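import Pool.Agent.Lib.MP_f146a9_al.DVZ.PermFZ

/-! MP_f146a9_al. Length and the action of the affine symmetric group on the integers. -/

namespace Pool.Agent.Lib.MP_f146a9_al.DV

private theorem PLZ_two {n : ℕ} (i : ZMod (n + 3)) : i + 1 + 1 ≠ i := by
  intro h
  apply ztwo_ne n
  linear_combination h

private theorem PLZ_lo {n : ℕ} {i : ZMod (n + 3)} {a : ℤ} (h : (a : ZMod (n + 3)) = i) :
    sz i a = a + 1 := by
  change szf i a = a + 1
  rw [szf, if_pos h]

private theorem PLZ_hi {n : ℕ} {i : ZMod (n + 3)} {a : ℤ} (h : (a : ZMod (n + 3)) = i + 1) :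
    sz i a = a - 1 := by
  change szf i a = a - 1
  rw [szf, if_neg (by rw [h]; exact zadd_ne i), if_pos h]

private theorem PLZ_oth {n : ℕ} {i : ZMod (n + 3)} {a : ℤ} (h : (a : ZMod (n + 3)) ≠ i)
    (h' : (a : ZMod (n + 3)) ≠ i + 1) : sz i a = a := by
  change szf i a = a
  rw [szf, if_neg h, if_neg h']

private theorem PLZ_inv_sz {n : ℕ} (i : ZMod (n + 3)) (x : ℤ) : (sz i)⁻¹ x = sz i x := rfl

private theorem PLZ_comm {n : ℕ} {W : Type*} [Group W] (cs : CoxeterSystem (typeAA n) W)
    {i j : ZMod (n + 3)} (hij : i ≠ j) (h1 : i ≠ j + 1) (h2 : j ≠ i + 1) :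
    cs.simple i * cs.simple j = cs.simple j * cs.simple i := by
  have hM : typeAA n i j = 2 := by
    change (if i = j then 1 else if j = i + 1 ∨ i = j + 1 then 3 else 2) = 2
    rw [if_neg hij, if_neg (by rintro (h | h); exacts [h2 h, h1 h])]
  have h := cs.simple_mul_simple_pow i j
  rw [hM, pow_two] at h
  have h3 := eq_inv_of_mul_eq_one_left h
  rwa [mul_inv_rev, cs.inv_simple, cs.inv_simple] at h3

private theorem PLZ_braid {n : ℕ} {W : Type*} [Group W] (cs : CoxeterSystem (typeAA n) W)
    {i j : ZMod (n + 3)} (hne : i ≠ j) (hij : j = i + 1 ∨ i = j + 1) :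
    cs.simple i * cs.simple j * cs.simple i = cs.simple j * cs.simple i * cs.simple j := by
  have hM : typeAA n i j = 3 := by
    change (if i = j then 1 else if j = i + 1 ∨ i = j + 1 then 3 else 2) = 3
    rw [if_neg hne, if_pos hij]
  have h := cs.simple_mul_simple_pow i j
  rw [hM, pow_succ, pow_two] at h
  have h3 := eq_inv_of_mul_eq_one_left h
  rw [mul_inv_rev, cs.inv_simple, cs.inv_simple] at h3
  have h4 : cs.simple i * cs.simple j * cs.simple i =
      cs.simple i * cs.simple j * (cs.simple i * cs.simple j) * cs.simple j := by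
    rw [mul_assoc (cs.simple i * cs.simple j) (cs.simple i * cs.simple j) (cs.simple j),
      mul_assoc (cs.simple i) (cs.simple j) (cs.simple j), cs.simple_mul_simple_self, mul_one]
  rw [h4, h3]

private theorem PLZ_inv {n : ℕ} {W : Type*} [Group W] (cs : CoxeterSystem (typeAA n) W)
    (f : W →* Equiv.Perm ℤ) (hf : ∀ i : ZMod (n + 3), f (cs.simple i) = sz i)
    (j : ZMod (n + 3)) (w : W) (x : ℤ) :
    (f (cs.simple j * w))⁻¹ x = (f w)⁻¹ (sz j x) := by
  rw [map_mul, mul_inv_rev, Equiv.Perm.mul_apply, hf, PLZ_inv_sz]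

private theorem PLZ_A {n : ℕ} {W : Type*} [Group W] (cs : CoxeterSystem (typeAA n) W)
    (f : W →* Equiv.Perm ℤ) (hf : ∀ i : ZMod (n + 3), f (cs.simple i) = sz i)
    (N : ℕ) : ∀ (w : W) (i : ZMod (n + 3)), cs.length w = N →
    cs.length w < cs.length (cs.simple i * w) → ∀ a : ℤ, (a : ZMod (n + 3)) = i →
    (f w)⁻¹ a < (f w)⁻¹ (a + 1) := by
  induction N using Nat.strong_induction_on with
  | _ N ih =>
    intro w i hN hi a ha
    by_cases h1 : w = 1
    · rw [h1, map_one, inv_one]
      exact lt_add_one a
    obtain ⟨j, hj⟩ := cs.exists_leftDescent_of_ne_one h1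
    have hj' : cs.length (cs.simple j * w) < cs.length w := hj
    have hij : i ≠ j := by
      rintro rfl
      omega
    obtain ⟨w', hw'⟩ : ∃ w', w' = cs.simple j * w := ⟨_, rfl⟩
    have hw : w = cs.simple j * w' := by rw [hw', cs.simple_mul_simple_cancel_left]
    have hl' : cs.length w' + 1 = cs.length w := by
      rw [hw']
      rcases cs.length_simple_mul w j with h | h <;> omega
    have hjw' : cs.length w' < cs.length (cs.simple j * w') := by rw [← hw]; omega
    have A2 := ih (cs.length w') (by omega) w' j rfl hjw'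
    have e0 : ∀ x, (f w)⁻¹ x = (f w')⁻¹ (sz j x) := by
      intro x
      rw [hw]
      exact PLZ_inv cs f hf j w' x
    have ha1 : ((a + 1 : ℤ) : ZMod (n + 3)) = i + 1 := by push_cast; rw [ha]
    have ham : ((a - 1 : ℤ) : ZMod (n + 3)) = i - 1 := by push_cast; rw [ha]
    rw [e0, e0]
    by_cases hc : cs.length w' < cs.length (cs.simple i * w')
    · have A1 := ih (cs.length w') (by omega) w' i rfl hc
      by_cases n1 : j = i + 1
      · have s1 : sz j a = a := PLZ_oth (by rw [ha]; exact hij)
          (by rw [ha, n1]; exact (PLZ_two i).symm)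
        have s2 : sz j (a + 1) = a + 1 + 1 := PLZ_lo (by rw [ha1, n1])
        rw [s1, s2]
        exact (A1 a ha).trans (A2 (a + 1) (by rw [ha1, n1]))
      · by_cases n2 : i = j + 1
        · have s1 : sz j a = a - 1 := PLZ_hi (by rw [ha, n2])
          have s2 : sz j (a + 1) = a + 1 := PLZ_oth (by rw [ha1, n2]; exact PLZ_two j)
            (by rw [ha1, n2]; exact zadd_ne (j + 1))
          have hm : ((a - 1 : ℤ) : ZMod (n + 3)) = j := by rw [ham, n2]; ring
          have h3 := A2 (a - 1) hm
          rw [sub_add_cancel] at h3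
          rw [s1, s2]
          exact h3.trans (A1 a ha)
        · have s1 : sz j a = a := PLZ_oth (by rw [ha]; exact hij) (by rw [ha]; exact n2)
          have s2 : sz j (a + 1) = a + 1 := PLZ_oth (by rw [ha1]; exact fun h => n1 h.symm)
            (by rw [ha1]; exact fun h => hij (add_right_cancel h))
          rw [s1, s2]
          exact A1 a ha
    · obtain ⟨v, hv⟩ : ∃ v, v = cs.simple i * w' := ⟨_, rfl⟩
      have hw'v : w' = cs.simple i * v := by rw [hv, cs.simple_mul_simple_cancel_left]
      have hlv : cs.length v + 1 = cs.length w' := by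
        rw [hv]
        rcases cs.length_simple_mul w' i with h | h <;> omega
      have hiw : cs.simple i * w = cs.simple i * cs.simple j * cs.simple i * v := by
        rw [hw, hw'v]
        simp only [mul_assoc]
      by_cases nb : j = i + 1 ∨ i = j + 1
      · have hjv : cs.length v < cs.length (cs.simple j * v) := by
          by_contra hcon
          obtain ⟨u, hu⟩ : ∃ u, u = cs.simple j * v := ⟨_, rfl⟩
          have hvu : v = cs.simple j * u := by rw [hu, cs.simple_mul_simple_cancel_left]
          have hlu : cs.length u + 1 = cs.length v := by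
            rw [hu]
            rcases cs.length_simple_mul v j with h | h <;> omega
          have h3 : cs.simple i * w = cs.simple j * (cs.simple i * u) := by
            rw [hiw, PLZ_braid cs hij nb, hvu, mul_assoc (cs.simple j * cs.simple i),
              cs.simple_mul_simple_cancel_left, mul_assoc]
          have h4 : cs.length (cs.simple i * w) ≤ cs.length u + 2 := by
            rw [h3]
            rcases cs.length_simple_mul (cs.simple i * u) j with h | h <;>
              rcases cs.length_simple_mul u i with h' | h' <;> omega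
          omega
        have B2 := ih (cs.length v) (by omega) v j rfl hjv
        have e1 : ∀ x, (f w')⁻¹ x = (f v)⁻¹ (sz i x) := by
          intro x
          rw [hw'v]
          exact PLZ_inv cs f hf i v x
        rw [e1, e1]
        rcases nb with n1 | n2
        · have s1 : sz j a = a := PLZ_oth (by rw [ha]; exact hij)
            (by rw [ha, n1]; exact (PLZ_two i).symm)
          have s2 : sz j (a + 1) = a + 1 + 1 := PLZ_lo (by rw [ha1, n1])
          have s3 : sz i a = a + 1 := PLZ_lo ha
          have ha2 : ((a + 1 + 1 : ℤ) : ZMod (n + 3)) = i + 1 + 1 := by push_cast; rw [ha]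
          have s4 : sz i (a + 1 + 1) = a + 1 + 1 := PLZ_oth (by rw [ha2]; exact PLZ_two i)
            (by rw [ha2]; exact zadd_ne (i + 1))
          rw [s1, s2, s3, s4]
          exact B2 (a + 1) (by rw [ha1, n1])
        · have s1 : sz j a = a - 1 := PLZ_hi (by rw [ha, n2])
          have s2 : sz j (a + 1) = a + 1 := PLZ_oth (by rw [ha1, n2]; exact PLZ_two j)
            (by rw [ha1, n2]; exact zadd_ne (j + 1))
          have hm : ((a - 1 : ℤ) : ZMod (n + 3)) = j := by rw [ham, n2]; ring
          have s3 : sz i (a - 1) = a - 1 := PLZ_oth (by rw [hm]; exact hij.symm)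
            (by rw [hm, n2]; exact (PLZ_two j).symm)
          have s4 : sz i (a + 1) = a + 1 - 1 := PLZ_hi ha1
          rw [s1, s2, s3, s4, add_sub_cancel_right]
          have h3 := B2 (a - 1) hm
          rwa [sub_add_cancel] at h3
      · exfalso
        push Not at nb
        have h3 : cs.simple i * w = cs.simple j * v := by
          rw [hiw, PLZ_comm cs hij nb.2 nb.1, mul_assoc (cs.simple j), cs.simple_mul_simple_self,
            mul_one]
        have h4 : cs.length (cs.simple i * w) ≤ cs.length v + 1 := by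
          rw [h3]
          rcases cs.length_simple_mul v j with h | h <;> omega
        omega

theorem permZ_len {n : ℕ} {W : Type*} [Group W] (cs : CoxeterSystem (typeAA n) W) (f : W →* Equiv.Perm ℤ)
    (hf : ∀ i : ZMod (n + 3), f (cs.simple i) = sz i) (i : ZMod (n + 3)) (w : W) (a : ℤ)
    (ha : (a : ZMod (n + 3)) = i) :
    cs.length w < cs.length (cs.simple i * w) ↔ (f w)⁻¹ a < (f w)⁻¹ (a + 1) := by
  refine ⟨fun h => PLZ_A cs f hf _ w i rfl h a ha, fun h => ?_⟩
  by_contra hcon
  have h1 : cs.length (cs.simple i * w) < cs.length (cs.simple i * (cs.simple i * w)) := by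
    rw [cs.simple_mul_simple_cancel_left]
    rcases cs.length_simple_mul w i with h' | h' <;> omega
  have h2 := PLZ_A cs f hf _ _ i rfl h1 a ha
  have ha1 : ((a + 1 : ℤ) : ZMod (n + 3)) = i + 1 := by push_cast; rw [ha]
  have s1 : sz i a = a + 1 := PLZ_lo ha
  have s2 : sz i (a + 1) = a + 1 - 1 := PLZ_hi ha1
  rw [PLZ_inv cs f hf, PLZ_inv cs f hf, s1, s2, add_sub_cancel_right] at h2
  exact lt_asymm h h2

theorem permZ_injective {n : ℕ} {W : Type*} [Group W] (cs : CoxeterSystem (typeAA n) W)
    (f : W →* Equiv.Perm ℤ) (hf : ∀ i : ZMod (n + 3), f (cs.simple i) = sz i) : Function.Injective f := by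
  rw [injective_iff_map_eq_one]
  intro w hw
  by_contra h1
  obtain ⟨j, hj⟩ := cs.exists_leftDescent_of_ne_one h1
  have hj' : cs.length (cs.simple j * w) < cs.length w := hj
  have h2 : ¬ cs.length w < cs.length (cs.simple j * w) := by omega
  obtain ⟨a, ha⟩ := ZMod.intCast_surjective j
  rw [permZ_len cs f hf j w a ha, hw, inv_one] at h2
  exact h2 (lt_add_one a)

end Pool.Agent.Lib.MP_f146a9_al.DV
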