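import Pool.Agent.Lib.MP_f146a9_al.DVD.Classical
import Pool.Agent.Lib.MP_f146a9_al.DVZ.UpZ
import Pool.Agent.Lib.MP_f146a9_al.DVZ.DownZ
import Pool.Agent.Lib.MP_f146a9_al.DVZ.HomZ
import Pool.Agent.Lib.MP_f146a9_al.DVZ.PermLZ

/-!
MP_f146a9_al. The cells of the Artin groups of the affine types A~, and all types together.
-/

namespace Pool.Agent.Lib.MP_f146a9_al.DV

open CoxeterSystem

theorem cellZ_one : CellZ 1 1 := by
  intro j
  refine ⟨⟨Pi.single j 1, ?_, ?_⟩, ?_⟩
  · refine ⟨by simp, fun a ha => ?_⟩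
    rw [Pi.single_eq_of_ne (by omega)]
  · refine ⟨by simp, fun a ha => ?_⟩
    have ha' : j < a := ha
    rw [Module.End.one_apply, Pi.single_eq_of_ne (by omega)]
  · intro v l hv hl
    rw [Module.End.one_apply] at hl
    exact (lead_unique hv hl).le

theorem cellZ_unique {x : Module.End ℚ Sq} {w w' : Equiv.Perm ℤ} (h : CellZ x w) (h' : CellZ x w') :
    w = w' := by
  ext j
  obtain ⟨v, hv1, hv2⟩ := (h j).1
  obtain ⟨v', hv1', hv2'⟩ := (h' j).1
  exact le_antisymm ((h j).2 v' _ hv1' hv2') ((h' j).2 v _ hv1 hv2)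

theorem good_rho {n : ℕ} (ρ : ArtinGroup (typeAA n) →* (Module.End ℚ Sq)ˣ)
    (hρ : ∀ (i : ZMod (n + 3)) (k : ℤ),
      ((ρ ((PresentedGroup.of i : ArtinGroup (typeAA n)) ^ k) : (Module.End ℚ Sq)ˣ) : Module.End ℚ Sq) =
        gz i k) (g : ArtinGroup (typeAA n)) : GoodZ n ((ρ g : (Module.End ℚ Sq)ˣ) : Module.End ℚ Sq) := by
  have hg : g ∈ Subgroup.closure
      (Set.range (PresentedGroup.of : ZMod (n + 3) → ArtinGroup (typeAA n))) := by
    rw [PresentedGroup.closure_range_of]
    exact Subgroup.mem_top g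
  obtain ⟨l, hl, rfl⟩ := exists_list hg
  clear hg
  induction l with
  | nil =>
    rw [List.prod_nil, map_one, Units.val_one]
    exact good_one
  | cons y l ih =>
    have ih' := ih fun z hz => hl z (List.mem_cons_of_mem _ hz)
    obtain ⟨i, k, hk⟩ : ∃ (i : ZMod (n + 3)) (k : ℤ),
        y = (PresentedGroup.of i : ArtinGroup (typeAA n)) ^ k := by
      rcases hl y (by simp) with h | h
      · obtain ⟨i, h2⟩ := h
        exact ⟨i, 1, by rw [zpow_one]; exact h2.symm⟩
      · obtain ⟨i, h2⟩ := h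
        refine ⟨i, -1, ?_⟩
        rw [zpow_neg_one, ← inv_inv y]
        exact congrArg _ h2.symm
    rw [List.prod_cons, map_mul, Units.val_mul, hk, hρ]
    exact good_mul (good_gz i k) ih'

theorem exists_cellsZ {n : ℕ} {W : Type*} [Group W] (cs : CoxeterSystem (typeAA n) W) :
    ∃ cell : ArtinGroup (typeAA n) → W → Prop, IsCells cs cell := by
  obtain ⟨f, hf⟩ := exists_permZ cs
  obtain ⟨ρ, hρ⟩ := exists_homZ n
  have hlen := permZ_len cs f hf
  have hinj := permZ_injective cs f hf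
  refine ⟨fun g w => CellZ ((ρ g : (Module.End ℚ Sq)ˣ) : Module.End ℚ Sq) (f w), ?_, ?_, ?_, ?_⟩
  · change CellZ ((ρ 1 : (Module.End ℚ Sq)ˣ) : Module.End ℚ Sq) (f 1)
    rw [map_one, map_one, Units.val_one]
    exact cellZ_one
  · intro g w w' h h'
    exact hinj (cellZ_unique h h')
  · intro i k g w hk h hw
    have h1 := upZ i (k := (k : ℚ)) (by exact_mod_cast hk) (good_rho ρ hρ g) h
      (fun l hl => (hlen i w l hl).1 hw)
    change CellZ ((ρ (_ * g) : (Module.End ℚ Sq)ˣ) : Module.End ℚ Sq) (f (_ * w))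
    rw [map_mul, map_mul, Units.val_mul, hρ, hf]
    exact h1
  · intro i k g w h hw
    have h2 : ∀ l : ℤ, (l : ZMod (n + 3)) = i → (f w)⁻¹ (l + 1) < (f w)⁻¹ l := by
      intro l hl
      have h3 : ¬ (f w)⁻¹ l < (f w)⁻¹ (l + 1) := by
        rw [← hlen i w l hl]
        omega
      rcases lt_or_gt_of_ne (a := (f w)⁻¹ l) (b := (f w)⁻¹ (l + 1)) (by
        intro h4
        have h5 := (f w)⁻¹.injective h4
        omega) with h4 | h4
      · exact absurd h4 h3
      · exact h4
    rcases downZ i (k : ℚ) (good_rho ρ hρ g) h (perZ cs f hf w) h2 with h1 | h1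
    · left
      change CellZ ((ρ (_ * g) : (Module.End ℚ Sq)ˣ) : Module.End ℚ Sq) (f w)
      rw [map_mul, Units.val_mul, hρ]
      exact h1
    · right
      change CellZ ((ρ (_ * g) : (Module.End ℚ Sq)ˣ) : Module.End ℚ Sq) (f (_ * w))
      rw [map_mul, map_mul, Units.val_mul, hρ, hf]
      exact h1

/-- the Coxeter matrices of the classical types `A_n`, `B_n`, `D_n` and of the affine types `A~_n`, `n ≥ 2` -/
inductive IsClassicalOrAffineA : {B : Type} → CoxeterMatrix B → Prop
  | A (n : ℕ) : IsClassicalOrAffineA (CoxeterMatrix.A n)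
  | B (n : ℕ) : IsClassicalOrAffineA (CoxeterMatrix.B n)
  | D (m : ℕ) : IsClassicalOrAffineA (typeD m)
  | affineA (n : ℕ) : IsClassicalOrAffineA (typeAA n)

/-- all types -/
theorem exists_cells_all {B : Type} {M : CoxeterMatrix B} (hM : IsClassicalOrAffineA M) {W : Type*}
    [Group W] (cs : CoxeterSystem M W) : ∃ cell : ArtinGroup M → W → Prop, IsCells cs cell := by
  cases hM with
  | A n => exact exists_cells cs
  | B n => exact exists_cellsAB _ (Or.inr rfl) cs
  | D m => exact exists_cellsD cs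
  | affineA n => exact exists_cellsZ cs

end Pool.Agent.Lib.MP_f146a9_al.DV
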