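import Mathlib
import Pool.Agent.Lib.MP_f146a9_al.Defs

/-!
MP_f146a9_al. The affine types A~: periodic operators on sequences, leading places.
-/

namespace Pool.Agent.Lib.MP_f146a9_al.DV

/-- The Coxeter matrix of the affine type `A~_(n+2)`: a cycle of `n + 3` nodes -/
def typeAA (n : ℕ) : CoxeterMatrix (ZMod (n + 3)) where
  M := Matrix.of fun i j : ZMod (n + 3) => if i = j then 1 else if j = i + 1 ∨ i = j + 1 then 3 else 2
  isSymm := by unfold Matrix.IsSymm; aesop
  diagonal := by simp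
  off_diagonal := by aesop

/-- sequences -/
abbrev Sq := ℤ → ℚ

theorem zone_ne (n : ℕ) : (1 : ZMod (n + 3)) ≠ 0 := by
  haveI : Fact (1 < n + 3) := ⟨by omega⟩
  exact one_ne_zero

theorem ztwo_ne (n : ℕ) : (2 : ZMod (n + 3)) ≠ 0 := by
  intro h
  have h1 : ((2 : ℕ) : ZMod (n + 3)) = 0 := by exact_mod_cast h
  rw [ZMod.natCast_eq_zero_iff] at h1
  have := Nat.le_of_dvd (by norm_num) h1
  omega

theorem zadd_ne {n : ℕ} (i : ZMod (n + 3)) : i + 1 ≠ i := by
  intro h
  exact zone_ne n (by simpa using h)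

/-- the operator of the generator `i` and the exponent `k`: the matrix `[[1 + k, -k], [k, 1 - k]]` at the places
`a, a + 1` for all `a` congruent to `i` modulo `n + 3` -/
def gz {n : ℕ} (i : ZMod (n + 3)) (k : ℚ) : Module.End ℚ Sq where
  toFun v a := if (a : ZMod (n + 3)) = i then v a + k * (v a - v (a + 1))
    else if (a : ZMod (n + 3)) = i + 1 then v a + k * (v (a - 1) - v a) else v a
  map_add' u v := by
    funext a
    simp only [Pi.add_apply]
    split_ifs <;> ring
  map_smul' c v := by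
    funext a
    simp only [Pi.smul_apply, smul_eq_mul, RingHom.id_apply]
    split_ifs <;> ring

/-- the exchange of `a` and `a + 1` for all `a` congruent to `i` -/
def szf {n : ℕ} (i : ZMod (n + 3)) (a : ℤ) : ℤ :=
  if (a : ZMod (n + 3)) = i then a + 1 else if (a : ZMod (n + 3)) = i + 1 then a - 1 else a

theorem szf_szf {n : ℕ} (i : ZMod (n + 3)) (a : ℤ) : szf i (szf i a) = a := by
  unfold szf
  by_cases h1 : (a : ZMod (n + 3)) = i
  · rw [if_pos h1]
    have h2 : ((a + 1 : ℤ) : ZMod (n + 3)) = i + 1 := by push_cast; rw [h1]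
    rw [if_neg (by rw [h2]; exact zadd_ne i), if_pos h2]
    ring
  · rw [if_neg h1]
    by_cases h2 : (a : ZMod (n + 3)) = i + 1
    · rw [if_pos h2]
      have h3 : ((a - 1 : ℤ) : ZMod (n + 3)) = i := by push_cast; rw [h2]; ring
      rw [if_pos h3]
      ring
    · rw [if_neg h2, if_neg h1, if_neg h2]

/-- the permutation of the generator `i`: it exchanges `a` and `a + 1` for all `a` congruent to `i` -/
def sz {n : ℕ} (i : ZMod (n + 3)) : Equiv.Perm ℤ where
  toFun := szf i
  invFun := szf i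
  left_inv := szf_szf i
  right_inv := szf_szf i

/-- `l` is the last place where `v` is not zero -/
def Lead (v : Sq) (l : ℤ) : Prop := v l ≠ 0 ∧ ∀ a, l < a → v a = 0

/-- the cell of an operator -/
def CellZ (x : Module.End ℚ Sq) (w : Equiv.Perm ℤ) : Prop :=
  ∀ j, (∃ v, Lead v j ∧ Lead (x v) (w j)) ∧ ∀ v l, Lead v j → Lead (x v) l → w j ≤ l

/-- periodic and bounded operators -/
structure GoodZ (n : ℕ) (x : Module.End ℚ Sq) : Prop where
  per : ∀ (v : Sq) (a : ℤ), x (fun b => v (b + ((n : ℤ) + 3))) a = x v (a + ((n : ℤ) + 3))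
  bdd : ∃ C : ℤ, ∀ v l, Lead v l → ∃ l', Lead (x v) l' ∧ l' ≤ l + C

end Pool.Agent.Lib.MP_f146a9_al.DV
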