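import Pool.Agent.Lib.MP_f146a9_al.DVZ.LeadZ

namespace Pool.Agent.Lib.MP_f146a9_al.DV

/-- a nonzero sequence which vanishes above `b` has a leading place -/
theorem exists_lead {v : Sq} {b : ℤ} (hb : ∀ a, b < a → v a = 0) (hv : v ≠ 0) : ∃ l, l ≤ b ∧ Lead v l := by
  have h1 : ∃ a, v a ≠ 0 := Function.ne_iff.1 hv
  have h2 : ∀ a, v a ≠ 0 → a ≤ b := fun a ha => by
    by_contra hc
    exact ha (hb a (not_le.1 hc))
  obtain ⟨l, hl, hmax⟩ := Int.exists_greatest_of_bdd (P := fun a => v a ≠ 0) ⟨b, h2⟩ h1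
  refine ⟨l, h2 l hl, hl, fun a ha => ?_⟩
  by_contra hc
  exact absurd (hmax a hc) (not_le.2 ha)

private theorem lead_mem_aux {x : Module.End ℚ Sq} {w : Equiv.Perm ℤ} (h : CellZ x w) (C : ℤ)
    (hC : ∀ v l, Lead v l → ∃ l', Lead (x v) l' ∧ l' ≤ l + C) (l : ℤ) :
    ∀ (N : ℕ) (v : Sq) (j : ℤ), Lead v j → Lead (x v) l → (j + C - l).toNat = N → w⁻¹ l ≤ j := by
  intro N
  induction N using Nat.strong_induction_on with
  | _ N ih =>
    intro v j hv hl hN
    by_cases hj : w j = l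
    · rw [← hj]
      simp
    have hle : w j ≤ l := (h j).2 v l hv hl
    have hlt : w j < l := lt_of_le_of_ne hle hj
    obtain ⟨u, hu, hxu⟩ := (h j).1
    have e1 : x (v - (v j / u j) • u) = x v - (v j / u j) • x u := by rw [map_sub, map_smul]
    have hl' : Lead (x (v - (v j / u j) • u)) l := by
      refine ⟨?_, fun a ha => ?_⟩
      · rw [e1, Pi.sub_apply, Pi.smul_apply, hxu.2 l hlt, smul_zero, sub_zero]
        exact hl.1
      · rw [e1, Pi.sub_apply, Pi.smul_apply, hxu.2 a (hlt.trans ha), smul_zero, sub_zero, hl.2 a ha]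
    have hz : ∀ a, j - 1 < a → (v - (v j / u j) • u) a = 0 := by
      intro a ha
      rcases eq_or_lt_of_le (show j ≤ a by omega) with e | e
      · subst e
        rw [Pi.sub_apply, Pi.smul_apply, smul_eq_mul, div_mul_cancel₀ _ hu.1, sub_self]
      · rw [Pi.sub_apply, Pi.smul_apply, hv.2 a e, hu.2 a e, smul_zero, sub_zero]
    have hne : v - (v j / u j) • u ≠ 0 := by
      intro h0
      rw [h0, map_zero] at hl'
      exact hl'.1 rfl
    obtain ⟨j', hj', hL⟩ := exists_lead hz hne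
    obtain ⟨l', hl1, hl2⟩ := hC _ j' hL
    have h3 : l' = l := lead_unique hl1 hl'
    have h4 := ih (j' + C - l).toNat (by omega) _ j' hL hl' rfl
    omega

theorem lead_mem {n : ℕ} {x : Module.End ℚ Sq} {w : Equiv.Perm ℤ} (hx : GoodZ n x) (h : CellZ x w) {v : Sq}
    {j l : ℤ} (hv : Lead v j) (hl : Lead (x v) l) : w⁻¹ l ≤ j := by
  obtain ⟨C, hC⟩ := hx.bdd
  exact lead_mem_aux h C hC l _ v j hv hl rfl

end Pool.Agent.Lib.MP_f146a9_al.DV
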