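import Pool.Agent.Lib.MP_f146a9_al.DVZ.Defs

namespace Pool.Agent.Lib.MP_f146a9_al.DV

private theorem castS {n : ℕ} {i : ZMod (n + 3)} {a : ℤ} (h : (a : ZMod (n + 3)) = i) :
    ((a + 1 : ℤ) : ZMod (n + 3)) = i + 1 := by
  push_cast
  rw [h]

private theorem castP {n : ℕ} {i : ZMod (n + 3)} {a : ℤ} (h : (a : ZMod (n + 3)) = i + 1) :
    ((a - 1 : ℤ) : ZMod (n + 3)) = i := by
  push_cast
  rw [h]
  ring

private theorem gz_i {n : ℕ} {i : ZMod (n + 3)} (k : ℚ) (v : Sq) {a : ℤ} (h : (a : ZMod (n + 3)) = i) :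
    gz i k v a = v a + k * (v a - v (a + 1)) := if_pos h

private theorem gz_i1 {n : ℕ} {i : ZMod (n + 3)} (k : ℚ) (v : Sq) {a : ℤ} (h : (a : ZMod (n + 3)) = i + 1) :
    gz i k v a = v a + k * (v (a - 1) - v a) :=
  (if_neg (by rw [h]; exact zadd_ne i)).trans (if_pos h)

private theorem gz_ne {n : ℕ} {i : ZMod (n + 3)} (k : ℚ) (v : Sq) {a : ℤ} (h1 : (a : ZMod (n + 3)) ≠ i)
    (h2 : (a : ZMod (n + 3)) ≠ i + 1) : gz i k v a = v a :=
  (if_neg h1).trans (if_neg h2)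

/-- zero above the leading place, if it is not a place of the lower kind -/
private theorem gz_above {n : ℕ} {i : ZMod (n + 3)} (k : ℚ) {v : Sq} {l : ℤ} (h : ∀ a, l < a → v a = 0)
    (h1 : (l : ZMod (n + 3)) ≠ i) (a : ℤ) (ha : l < a) : gz i k v a = 0 := by
  by_cases hi : (a : ZMod (n + 3)) = i
  · rw [gz_i k v hi, h a ha, h (a + 1) (by omega)]
    ring
  · by_cases hi1 : (a : ZMod (n + 3)) = i + 1
    · have h2 : a - 1 ≠ l := by
        intro h3
        have h4 := castP hi1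
        rw [h3] at h4
        exact h1 h4
      rw [gz_i1 k v hi1, h a ha, h (a - 1) (by omega)]
      ring
    · rw [gz_ne k v hi hi1, h a ha]

theorem lead_unique {v : Sq} {l l' : ℤ} (h : Lead v l) (h' : Lead v l') : l = l' := by
  rcases lt_trichotomy l l' with h1 | h1 | h1
  · exact absurd (h.2 l' h1) h'.1
  · exact h1
  · exact absurd (h'.2 l h1) h.1

theorem gz_zero {n : ℕ} (i : ZMod (n + 3)) : gz i 0 = 1 := by
  refine LinearMap.ext fun v => ?_
  funext a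
  change gz i 0 v a = v a
  by_cases hi : (a : ZMod (n + 3)) = i
  · rw [gz_i 0 v hi]
    ring
  · by_cases hi1 : (a : ZMod (n + 3)) = i + 1
    · rw [gz_i1 0 v hi1]
      ring
    · rw [gz_ne 0 v hi hi1]

theorem gz_mul {n : ℕ} (i : ZMod (n + 3)) (k l : ℚ) : gz i k * gz i l = gz i (k + l) := by
  refine LinearMap.ext fun v => ?_
  funext a
  change gz i k (gz i l v) a = gz i (k + l) v a
  by_cases hi : (a : ZMod (n + 3)) = i
  · rw [gz_i k _ hi, gz_i l v hi, gz_i1 l v (castS hi), gz_i (k + l) v hi, show a + 1 - 1 = a by ring]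
    ring
  · by_cases hi1 : (a : ZMod (n + 3)) = i + 1
    · rw [gz_i1 k _ hi1, gz_i1 l v hi1, gz_i l v (castP hi1), gz_i1 (k + l) v hi1,
        show a - 1 + 1 = a by ring]
      ring
    · rw [gz_ne k _ hi hi1, gz_ne l v hi hi1, gz_ne (k + l) v hi hi1]

theorem gz_other {n : ℕ} (i : ZMod (n + 3)) (k : ℚ) {v : Sq} {l : ℤ} (h : Lead v l)
    (h1 : (l : ZMod (n + 3)) ≠ i) (h2 : (l : ZMod (n + 3)) ≠ i + 1) : Lead (gz i k v) l := by
  refine ⟨?_, gz_above k h.2 h1⟩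
  rw [gz_ne k v h1 h2]
  exact h.1

theorem gz_low {n : ℕ} (i : ZMod (n + 3)) {k : ℚ} (hk : k ≠ 0) {v : Sq} {l : ℤ} (h : Lead v l)
    (h1 : (l : ZMod (n + 3)) = i) : Lead (gz i k v) (l + 1) := by
  refine ⟨?_, gz_above k (fun a ha => h.2 a (by omega)) (by rw [castS h1]; exact zadd_ne i)⟩
  rw [gz_i1 k v (castS h1), h.2 (l + 1) (by omega), show l + 1 - 1 = l by ring, sub_zero, zero_add]
  exact mul_ne_zero hk h.1

theorem gz_high {n : ℕ} (i : ZMod (n + 3)) (k : ℚ) {v : Sq} {l : ℤ} (h : Lead v l)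
    (h1 : (l : ZMod (n + 3)) = i + 1) : Lead (gz i k v) l ∨ Lead (gz i k v) (l - 1) := by
  have hab := gz_above (i := i) k h.2 (by rw [h1]; exact zadd_ne i)
  by_cases h0 : gz i k v l = 0
  · right
    refine ⟨fun h2 => ?_, fun a ha => ?_⟩
    · rw [gz_i1 k v h1] at h0
      rw [gz_i k v (castP h1), show l - 1 + 1 = l by ring] at h2
      have h3 : v (l - 1) = v l := by linarith
      rw [h3] at h0
      exact h.1 (by linarith)
    · rcases eq_or_lt_of_le (show l ≤ a by omega) with h2 | h2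
      · rw [← h2]
        exact h0
      · exact hab a h2
  · exact Or.inl ⟨h0, hab⟩

theorem gz_high_apply {n : ℕ} (i : ZMod (n + 3)) (k : ℚ) (v : Sq) {l : ℤ}
    (h1 : (l : ZMod (n + 3)) = i + 1) : gz i k v l = v l + k * (v (l - 1) - v l) := by
  exact gz_i1 k v h1

theorem good_one {n : ℕ} : GoodZ n 1 := by
  refine ⟨fun v a => rfl, 0, fun v l h => ⟨l, h, by omega⟩⟩

theorem good_gz {n : ℕ} (i : ZMod (n + 3)) (k : ℚ) : GoodZ n (gz i k) := by
  refine ⟨fun v a => ?_, 1, fun v l h => ?_⟩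
  · have hN : ((a + ((n : ℤ) + 3) : ℤ) : ZMod (n + 3)) = (a : ZMod (n + 3)) := by
      have h1 : ((n + 3 : ℕ) : ZMod (n + 3)) = 0 := ZMod.natCast_self (n + 3)
      push_cast at h1 ⊢
      rw [h1, add_zero]
    by_cases hi : (a : ZMod (n + 3)) = i
    · rw [gz_i k _ hi, gz_i k v (hN.trans hi), show a + ((n : ℤ) + 3) + 1 = a + 1 + ((n : ℤ) + 3) by ring]
    · by_cases hi1 : (a : ZMod (n + 3)) = i + 1
      · rw [gz_i1 k _ hi1, gz_i1 k v (hN.trans hi1),
          show a + ((n : ℤ) + 3) - 1 = a - 1 + ((n : ℤ) + 3) by ring]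
      · rw [gz_ne k _ hi hi1, gz_ne k v (by rw [hN]; exact hi) (by rw [hN]; exact hi1)]
  · by_cases hi : (l : ZMod (n + 3)) = i
    · by_cases hk : k = 0
      · refine ⟨l, ?_, by omega⟩
        rw [hk, gz_zero]
        exact h
      · exact ⟨l + 1, gz_low i hk h hi, le_rfl⟩
    · by_cases hi1 : (l : ZMod (n + 3)) = i + 1
      · rcases gz_high i k h hi1 with h2 | h2
        · exact ⟨l, h2, by omega⟩
        · exact ⟨l - 1, h2, by omega⟩
      · exact ⟨l, gz_other i k h hi hi1, by omega⟩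

theorem good_mul {n : ℕ} {x y : Module.End ℚ Sq} (hx : GoodZ n x) (hy : GoodZ n y) : GoodZ n (x * y) := by
  refine ⟨fun v a => ?_, ?_⟩
  · change x (y fun b => v (b + ((n : ℤ) + 3))) a = x (y v) (a + ((n : ℤ) + 3))
    have h1 : (y fun b => v (b + ((n : ℤ) + 3))) = fun b => y v (b + ((n : ℤ) + 3)) := by
      funext b
      exact hy.per v b
    rw [h1]
    exact hx.per (y v) a
  · obtain ⟨C, hC⟩ := hx.bdd
    obtain ⟨D, hD⟩ := hy.bdd
    refine ⟨C + D, fun v l h => ?_⟩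
    obtain ⟨l', h1, h2⟩ := hD v l h
    obtain ⟨l'', h3, h4⟩ := hC (y v) l' h1
    exact ⟨l'', h3, by omega⟩

end Pool.Agent.Lib.MP_f146a9_al.DV
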